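import Mathlib
import Pool.Agent.Helper8.MG.Parts
import Pool.Graph.R_seed8.Helper707.Model

/-!
Swarm MG: the parts WCL, GST, PRB, RMG, WFI, LAM (the module on which the words of the non halting
numbers do not vanish).
-/

namespace Pool.Agent.Helper8.MG

open Finset Polynomial Pool.Agent.Helper707.Idem
open Pool.Agent.Helper707.Rel (Sys)

universe u

namespace H98

variable (F : Type*) [Field F]

theorem eig_le (m : ℕ) (β : Bs) : eig m β ≤ Rr m := by
  unfold eig eigV
  split
  · rename_i h; exact num_le h
  · exact bot_le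

theorem Xop_bv (m : ℕ) (β : Bs) : Xop F m (bv F β) = xb F m β := by
  simp [Xop, bv]

theorem Yop_bv (β : Bs) : Yop F (bv F β) = yb F β := by
  simp [Yop, bv]

theorem Zop_bv (m : ℕ) (β : Bs) : Zop F m (bv F β) = (eig m β : F) • bv F β := by
  simp [Zop, bv]

theorem aeval_Zop_bv (m : ℕ) (p : F[X]) (β : Bs) :
    (aeval (Zop F m) p) (bv F β) = (p.eval (eig m β : F)) • bv F β := by
  induction p using Polynomial.induction_on' with
  | add p q hp hq => simp [hp, hq, add_smul]
  | monomial n a =>
    rw [aeval_monomial, Module.End.mul_apply, eval_monomial, mul_smul]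
    have : ∀ n : ℕ, ((Zop F m) ^ n) (bv F β) = ((eig m β : F) ^ n) • bv F β := by
      intro n
      induction n with
      | zero => simp
      | succ n ih => rw [pow_succ', Module.End.mul_apply, ih, map_smul, Zop_bv, smul_smul, pow_succ]
    rw [this, Module.algebraMap_end_apply]

theorem ext_bv {W : Type*} [AddCommGroup W] [Module F W] {f g : (Bs →₀ F) →ₗ[F] W}
    (h : ∀ β, f (bv F β) = g (bv F β)) : f = g := by
  apply Finsupp.lhom_ext'
  intro β
  apply LinearMap.ext_ring
  exact h β

variable {F}

/-! ### weights -/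

theorem TY_zero (j : Col) : TY (fun _ _ => (0 : F)) j := by
  cases j with
  | k i => simp [TY]
  | d r => simp [TY]

theorem TY_add {f g : ℕ → ℕ → F} {j : Col} (hf : TY f j) (hg : TY g j) :
    TY (fun p q => f p q + g p q) j := by
  cases j with
  | k i =>
    simp only [TY] at *
    split
    · rename_i h
      rw [if_pos h] at hf hg
      intro p q; rw [hf, hg, add_zero]
    · rename_i h
      rw [if_neg h] at hf hg
      intro p q; rw [hf, hg, add_zero]
  | d r =>
    simp only [TY] at *
    intro p q; rw [hf, hg]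

theorem TY_mul {f : ℕ → ℕ → F} {j : Col} (c : F) (hf : TY f j) :
    TY (fun p q => c * f p q) j := by
  cases j with
  | k i =>
    simp only [TY] at *
    split
    · rename_i h
      rw [if_pos h] at hf
      intro p q; rw [hf, mul_zero]
    · rename_i h
      rw [if_neg h] at hf
      intro p q; rw [hf, mul_zero]
  | d r =>
    simp only [TY] at *
    intro p q; rw [hf]

theorem TY_sum {ι : Type*} (s : Finset ι) {f : ι → ℕ → ℕ → F} {j : Col}
    (hf : ∀ i ∈ s, TY (f i) j) : TY (fun p q => ∑ i ∈ s, f i p q) j := by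
  classical
  induction s using Finset.induction_on with
  | empty => simpa using TY_zero j
  | insert a s ha ih =>
    have h1 := TY_add (hf a (mem_insert_self a s)) (ih fun i hi => hf i (mem_insert_of_mem hi))
    simpa [Finset.sum_insert ha] using h1

theorem TY_p {f : ℕ → ℕ → F} {j : Col} (hf : TY f j) : TY (fun p q => f (p + 1) q) j := by
  cases j with
  | k i =>
    simp only [TY] at *
    split
    · rename_i h
      rw [if_pos h] at hf
      intro p q; rw [hf]
    · rename_i h
      rw [if_neg h] at hf
      intro p q; rw [hf]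
  | d r =>
    simp only [TY] at *
    intro p q; rw [hf]

theorem TY_q {f : ℕ → ℕ → F} {j : Col} (hf : TY f j) : TY (fun p q => f p (q + 1)) j := by
  cases j with
  | k i =>
    simp only [TY] at *
    split
    · rename_i h
      rw [if_pos h] at hf
      intro p q; rw [hf]
    · rename_i h
      rw [if_neg h] at hf
      intro p q; rw [hf]
  | d r =>
    simp only [TY] at *
    intro p q; rw [hf]

theorem xT {Y : Sys} {w : Bs → F} (h : IsW Y w) : IsW Y (fun β => pair w (xb F Y.m β)) := by
  constructor
  · intro i j n n' p q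
    simp only [xb, map_add, pair_bv]
    rw [h.Tt, show n + A Y i j + 1 = (n + 1) + A Y i j by omega, h.Tb]
  · intro i j n n' p q
    simp only [xb, pair_bv]; rw [h.Tt]
  · intro j n'
    simp only [xb, map_add, map_sum, pair_bv]
    exact TY_add (h.tyc j (n' + 1)) (TY_sum _ fun i _ => h.tyb i j 0 n')
  · intro i j n n'
    simp only [xb, map_add, pair_bv]
    exact TY_add (h.tyb i j (n + 1) n') (h.tyt i j n n')
  · intro i j n n'
    simp only [xb, pair_bv]
    exact TY_p (h.tyt i j n n')
  · intro i n p q
    simp only [xb, map_add, pair_bv]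
    rw [← h.rwb, ← h.rwt]; ring
  · intro i n p q
    simp only [xb, pair_bv]; rw [h.rwt]
  · intro i n' p q hi
    simp only [xb, pair_bv]; rw [h.ck i n' (p + 1) q hi]
  · intro r n' p q hr
    simp only [xb, pair_bv]; rw [h.cd r n' (p + 1) q hr]

theorem yT {Y : Sys} {w : Bs → F} (h : IsW Y w) : IsW Y (fun β => pair w (yb F β)) := by
  constructor
  · intro i j n n' p q; simp [yb]
  · intro i j n n' p q
    simp only [yb, pair_bv]; rw [h.Tt]
  · intro j n'
    simp only [yb, map_zero]
    exact TY_zero j
  · intro i j n n'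
    simp only [yb, map_zero]
    exact TY_zero j
  · intro i j n n'
    simp only [yb, pair_bv]
    exact TY_q (h.tyt i j n n')
  · intro i n p q; simp [yb]
  · intro i n p q
    simp only [yb, pair_bv]; rw [h.rwt]
  · intro i n' p q hi
    simp only [yb, pair_bv]; rw [h.ck i n' p (q + 1) hi]
  · intro r n' p q hr
    simp only [yb, pair_bv]; rw [h.cd r n' p (q + 1) hr]

theorem zT {Y : Sys} {w : Bs → F} (h : IsW Y w) :
    IsW Y (fun β => (eig Y.m β : F) * w β) := by
  constructor
  · intro i j n n' p q; simp only [eig, vert]; rw [h.Tb]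
  · intro i j n n' p q; simp only [eig, vert]; rw [h.Tt]
  · intro j n'; simp only [eig, vert]; exact TY_mul _ (h.tyc j n')
  · intro i j n n'; simp only [eig, vert]; exact TY_mul _ (h.tyb i j n n')
  · intro i j n n'; simp only [eig, vert]; exact TY_mul _ (h.tyt i j n n')
  · intro i n p q; simp only [eig, vert]; rw [← h.rwb]; ring
  · intro i n p q; simp only [eig, vert]; rw [← h.rwt]; ring
  · intro i n' p q hi; simp only [eig, vert]; rw [h.ck i n' p q hi]
  · intro r n' p q hr; simp only [eig, vert]; rw [h.cd r n' p q hr]; ring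

end H98

/-- WCL -/
theorem t_WCL : S_WCL.{u} := fun _ _ _ _ h => ⟨H98.xT h, H98.yT h, H98.zT h⟩

namespace H98

variable {F : Type*} [Field F]

theorem pair_Xop (m : ℕ) (w : Bs → F) (y : Bs →₀ F) :
    pair w (Xop F m y) = pair (fun β => pair w (xb F m β)) y := by
  have : (pair w) ∘ₗ (Xop F m) = pair (fun β => pair w (xb F m β)) := by
    apply ext_bv
    intro β
    rw [LinearMap.comp_apply, Xop_bv, pair_bv]
  rw [← this]; rfl

theorem pair_Yop (w : Bs → F) (y : Bs →₀ F) :
    pair w (Yop F y) = pair (fun β => pair w (yb F β)) y := by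
  have : (pair w) ∘ₗ (Yop F) = pair (fun β => pair w (yb F β)) := by
    apply ext_bv
    intro β
    rw [LinearMap.comp_apply, Yop_bv, pair_bv]
  rw [← this]; rfl

theorem pair_Zop (m : ℕ) (w : Bs → F) (y : Bs →₀ F) :
    pair w (Zop F m y) = pair (fun β => (eig m β : F) * w β) y := by
  have : (pair w) ∘ₗ (Zop F m) = pair (fun β => (eig m β : F) * w β) := by
    apply ext_bv
    intro β
    rw [LinearMap.comp_apply, Zop_bv, pair_bv, map_smul, pair_bv, smul_eq_mul]
  rw [← this]; rfl

theorem Xop_G {Y : Sys} {y : Bs →₀ F} (h : y ∈ G F Y) : Xop F Y.m y ∈ G F Y := by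
  intro w hw
  rw [pair_Xop]; exact h _ (xT hw)

theorem Yop_G {Y : Sys} {y : Bs →₀ F} (h : y ∈ G F Y) : Yop F y ∈ G F Y := by
  intro w hw
  rw [pair_Yop]; exact h _ (yT hw)

theorem Zop_G {Y : Sys} {y : Bs →₀ F} (h : y ∈ G F Y) : Zop F Y.m y ∈ G F Y := by
  intro w hw
  rw [pair_Zop]; exact h _ (zT hw)

theorem lift_G {Y : Sys} (g : FreeAlgebra F (Fin 3)) {y : Bs →₀ F} (h : y ∈ G F Y) :
    FreeAlgebra.lift F (gens F Y.m) g y ∈ G F Y := by
  induction g using FreeAlgebra.induction generalizing y with
  | grade0 r => rw [AlgHom.commutes]; exact (G F Y).smul_mem r h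
  | grade1 i =>
    rw [FreeAlgebra.lift_ι_apply]
    unfold gens
    fin_cases i
    · exact Zop_G h
    · exact Xop_G h
    · exact Yop_G h
  | mul a b ha hb => rw [map_mul]; exact ha (hb h)
  | add a b ha hb => rw [map_add]; exact (G F Y).add_mem (ha h) (hb h)

end H98

/-- GST -/
theorem t_GST : S_GST.{u} := fun _ _ _ _ g _ h => H98.lift_G g h

namespace H98

variable {F : Type*} [Field F] [CharZero F]

theorem P_Zop (m : ℕ) : aeval (Zop F m) (P F (Rr m)) = 0 := by
  apply ext_bv
  intro β
  rw [aeval_Zop_bv, P_eval F _ _ (eig_le m β)]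
  simp

theorem pr_bv {m M : ℕ} (hM : 0 < M) {p : V} (hp : p ∈ S m) (β : Bs) :
    pr F m M p (bv F β) = if vert β = p then bv F β else 0 := by
  unfold pr ee
  rw [aeval_Zop_bv]
  by_cases h : vert β = p
  · rw [if_pos h]
    have : eig m β = num p := by unfold eig eigV; rw [h, if_pos hp]
    rw [this, E_eval_self]
    simp [hM.ne']
  · rw [if_neg h, E_eval_ne F _ _ _ _ hM (eig_le m β), zero_smul]
    unfold eig eigV
    split
    · intro heq; exact h (num_inj heq)
    · have := num_pos p; omega

end H98

/-- PRB -/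
theorem t_PRB : S_PRB.{u} := fun _ _ _ m => ⟨H98.P_Zop m, fun _ hM _ hp β => H98.pr_bv hM hp β⟩

namespace H98

variable {F : Type*} [Field F] [CharZero F]

theorem pr_bv_self {m M : ℕ} (hM : 0 < M) {p : V} (hp : p ∈ S m) {β : Bs} (h : vert β = p) :
    pr F m M p (bv F β) = bv F β := by rw [pr_bv hM hp, if_pos h]

theorem pr_bv_ne {m M : ℕ} (hM : 0 < M) {p : V} (hp : p ∈ S m) {β : Bs} (h : vert β ≠ p) :
    pr F m M p (bv F β) = 0 := by rw [pr_bv hM hp, if_neg h]

variable {m M : ℕ} (hM : 0 < M)

include hM

theorem K_bb {i : ℕ} (hi : V.b i ∈ S m) (j : Col) (n n' p q : ℕ) :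
    K (pr F m M) (Xop F m) (.b i) (.b i) (bv F (.b i j n n' p q)) = bv F (.b i j (n + 1) n' p q) := by
  unfold K
  rw [Module.End.mul_apply, Module.End.mul_apply, pr_bv hM hi, if_pos (by rfl), Xop_bv]
  simp [xb, pr_bv hM hi, vert]

theorem Kpow_bb {i : ℕ} (hi : V.b i ∈ S m) (j : Col) (n n' p q k : ℕ) :
    ((K (pr F m M) (Xop F m) (.b i) (.b i)) ^ k) (bv F (.b i j n n' p q))
      = bv F (.b i j (n + k) n' p q) := by
  induction k with
  | zero => simp
  | succ k ih => rw [pow_succ', Module.End.mul_apply, ih, K_bb hM hi, add_assoc]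

theorem K_bc {i : ℕ} (hi : V.b i ∈ S m) {j : Col} (hj : V.c j ∈ S m) (n p q : ℕ) :
    K (pr F m M) (Xop F m) (.b i) (.c j) (bv F (.c j n p q)) = bv F (.b i j 0 n p q) := by
  unfold K
  rw [Module.End.mul_apply, Module.End.mul_apply, pr_bv hM hj, if_pos (by rfl), Xop_bv]
  simp only [xb, map_add, map_sum]
  rw [pr_bv_ne hM hi (by simp [vert]), zero_add, Finset.sum_eq_single i]
  · rw [pr_bv_self hM hi rfl]
  · intro k _ hk
    rw [pr_bv_ne hM hi]
    simpa [vert] using hk
  · intro hn
    rw [mem_b] at hi
    exact absurd (Finset.mem_range.2 hi) hn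

theorem K_cc {j : Col} (hj : V.c j ∈ S m) (n p q : ℕ) :
    K (pr F m M) (Xop F m) (.c j) (.c j) (bv F (.c j n p q)) = bv F (.c j (n + 1) p q) := by
  unfold K
  rw [Module.End.mul_apply, Module.End.mul_apply, pr_bv hM hj, if_pos (by rfl), Xop_bv]
  simp [xb, map_add, map_sum, pr_bv hM hj, vert]

theorem K_ca {j : Col} (hj : V.c j ∈ S m) (p q : ℕ) :
    K (pr F m M) (Xop F m) (.c j) .al (bv F (.fin p q)) = bv F (.c j 0 p q) := by
  unfold K
  rw [Module.End.mul_apply, Module.End.mul_apply, pr_bv hM (mem_al m), if_pos (by rfl), Xop_bv]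
  simp only [xb, map_add, map_sum]
  rw [pr_bv_ne hM hj (by simp [vert]), zero_add, Finset.sum_eq_single j]
  · rw [pr_bv_self hM hj rfl]
  · intro k _ hk
    rw [pr_bv_ne hM hj]
    simpa [vert] using hk
  · intro hn
    rw [mem_c] at hj
    exact absurd hj hn

theorem K_ca_t {j : Col} (hj : V.c j ∈ S m) (i : ℕ) (j' : Col) (n n' p q : ℕ) :
    K (pr F m M) (Xop F m) (.c j) .al (bv F (.t i j' n n' p q)) = 0 := by
  unfold K
  rw [Module.End.mul_apply, Module.End.mul_apply, pr_bv hM (mem_al m), if_pos (by rfl), Xop_bv]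
  simp only [xb]
  rw [pr_bv_ne hM hj (by simp [vert])]

theorem K_ab {i : ℕ} (hi : V.b i ∈ S m) (j : Col) (n n' p q : ℕ) :
    K (pr F m M) (Xop F m) .al (.b i) (bv F (.b i j n n' p q)) = bv F (.t i j n n' p q) := by
  unfold K
  rw [Module.End.mul_apply, Module.End.mul_apply, pr_bv hM hi, if_pos (by rfl), Xop_bv]
  simp [xb, pr_bv hM (mem_al m), vert]

theorem Kx_aa (p q : ℕ) :
    K (pr F m M) (Xop F m) .al .al (bv F (.fin p q)) = bv F (.fin (p + 1) q) := by
  unfold K
  rw [Module.End.mul_apply, Module.End.mul_apply, pr_bv hM (mem_al m), if_pos (by rfl), Xop_bv]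
  simp [xb, map_add, map_sum, pr_bv hM (mem_al m), vert]

theorem Ky_aa (p q : ℕ) :
    K (pr F m M) (Yop F) .al .al (bv F (.fin p q)) = bv F (.fin p (q + 1)) := by
  unfold K
  rw [Module.End.mul_apply, Module.End.mul_apply, pr_bv hM (mem_al m), if_pos (by rfl), Yop_bv]
  simp [yb, pr_bv hM (mem_al m), vert]

theorem Kx_aa_t (i : ℕ) (j : Col) (n n' p q : ℕ) :
    K (pr F m M) (Xop F m) .al .al (bv F (.t i j n n' p q)) = bv F (.t i j n n' (p + 1) q) := by
  unfold K
  rw [Module.End.mul_apply, Module.End.mul_apply, pr_bv hM (mem_al m), if_pos (by rfl), Xop_bv]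
  simp [xb, pr_bv hM (mem_al m), vert]

theorem Ky_aa_t (i : ℕ) (j : Col) (n n' p q : ℕ) :
    K (pr F m M) (Yop F) .al .al (bv F (.t i j n n' p q)) = bv F (.t i j n n' p (q + 1)) := by
  unfold K
  rw [Module.End.mul_apply, Module.End.mul_apply, pr_bv hM (mem_al m), if_pos (by rfl), Yop_bv]
  simp [yb, pr_bv hM (mem_al m), vert]

/-- the relators send the module into `G` -/
theorem rel_mem_G {Y : Sys} (hm : m = Y.m) {p r : V} (hp : p ∈ S m) (hr : r ∈ S m) (β : Bs)
    (hβ : vert β = r) : rel Y (pr F m M) (Xop F m) (Yop F) p r (bv F β) ∈ G F Y := by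
  subst hm
  cases p with
  | al =>
    cases r with
    | al => simp [rel]
    | b i => simp [rel]
    | c j =>
      cases j with
      | k l =>
        cases l with
        | zero => simp [rel]
        | succ i =>
          cases β with
          | c j' n' a b =>
            obtain rfl : j' = Col.k (i + 1) := by simpa [vert] using hβ
            simp only [rel]
            split
            · rename_i h
              have h1 : V.b i ∈ S Y.m := by rw [mem_b]; omega
              have h2 : V.b (i + 1) ∈ S Y.m := by rw [mem_b]; omega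
              simp only [LinearMap.sub_apply, Module.End.mul_apply]
              rw [K_bc hM h1 hr, K_bc hM h2 hr, K_ab hM h1, K_ab hM h2]
              intro w hw
              rw [map_sub, pair_bv, pair_bv, hw.ck i n' a b h, sub_self]
            · simp
          | fin _ _ => simp [vert] at hβ
          | b _ _ _ _ _ _ => simp [vert] at hβ
          | t _ _ _ _ _ _ => simp [vert] at hβ
      | d r =>
        cases β with
        | c j' n' a b =>
          obtain rfl : j' = Col.d r := by simpa [vert] using hβ
          have hr' : r < Y.m := by rw [mem_c, mem_d] at hr; exact hr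
          have h1 : V.b (2 * r) ∈ S Y.m := by rw [mem_b]; omega
          have h2 : V.b (2 * r + 1) ∈ S Y.m := by rw [mem_b]; omega
          simp only [rel, LinearMap.sub_apply, Module.End.mul_apply, LinearMap.smul_apply]
          rw [K_bc hM h1 hr, K_bc hM h2 hr, Kpow_bb hM h1, Kpow_bb hM h2, K_ab hM h1, K_ab hM h2,
            zero_add, zero_add]
          intro w hw
          rw [map_sub, map_nsmul, pair_bv, pair_bv, hw.cd r n' a b hr', nsmul_eq_mul, sub_self]
        | fin _ _ => simp [vert] at hβ
        | b _ _ _ _ _ _ => simp [vert] at hβ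
        | t _ _ _ _ _ _ => simp [vert] at hβ
  | b i =>
    cases r with
    | b _ => simp [rel]
    | al =>
      have hi : i < 2 * Y.m := by rw [mem_b] at hp; exact hp
      have h1 : V.c (.k i) ∈ S Y.m := by rw [mem_c, mem_k]; omega
      have h2 : V.c (.k (i + 1)) ∈ S Y.m := by rw [mem_c, mem_k]; omega
      have h3 : V.c (.d (i / 2)) ∈ S Y.m := by rw [mem_c, mem_d]; omega
      cases β with
      | fin a b =>
        simp only [rel, LinearMap.sub_apply, LinearMap.add_apply, Module.End.mul_apply]
        rw [K_ca hM h1, K_ca hM h2, K_ca hM h3, K_bc hM hp h1, K_bc hM hp h2, K_bc hM hp h3]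
        intro w hw
        rw [map_sub, map_add, pair_bv, pair_bv, pair_bv, hw.rwb, sub_self]
      | t i' j' n n' a b =>
        simp only [rel, LinearMap.sub_apply, LinearMap.add_apply, Module.End.mul_apply]
        rw [K_ca_t hM h1, K_ca_t hM h2, K_ca_t hM h3]
        simp
      | b _ _ _ _ _ _ => simp [vert] at hβ
      | c _ _ _ _ => simp [vert] at hβ
    | c j =>
      cases β with
      | c j' n' a b =>
        obtain rfl : j' = j := by simpa [vert] using hβ
        simp only [rel, LinearMap.sub_apply, Module.End.mul_apply]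
        rw [K_bc hM hp hr, K_cc hM hr, K_bc hM hp hr, Kpow_bb hM hp]
        intro w hw
        rw [map_sub, pair_bv, pair_bv, hw.Tb, sub_self]
      | fin _ _ => simp [vert] at hβ
      | b _ _ _ _ _ _ => simp [vert] at hβ
      | t _ _ _ _ _ _ => simp [vert] at hβ
  | c j =>
    cases r with
    | b _ => simp [rel]
    | c _ => simp [rel]
    | al =>
      cases β with
      | fin a b =>
        simp only [rel, Module.End.mul_apply]
        cases j with
        | k i =>
          simp only [ty]
          split
          · rename_i h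
            rw [Kx_aa hM, K_ca hM hp]
            intro w hw
            have h1 := hw.tyc (.k i) 0
            simp only [TY] at h1
            rw [if_pos h] at h1
            rw [pair_bv, h1]
          · rename_i h
            rw [Ky_aa hM, K_ca hM hp]
            intro w hw
            have h1 := hw.tyc (.k i) 0
            simp only [TY] at h1
            rw [if_neg h] at h1
            rw [pair_bv, h1]
        | d r =>
          simp only [ty, LinearMap.sub_apply, map_sub]
          rw [Kx_aa hM, Ky_aa hM, K_ca hM hp, K_ca hM hp]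
          intro w hw
          have h1 := hw.tyc (.d r) 0
          simp only [TY] at h1
          rw [map_sub, pair_bv, pair_bv, h1, sub_self]
      | t i' j' n n' a b =>
        simp only [rel, Module.End.mul_apply]
        cases j with
        | k i =>
          simp only [ty]
          split
          · rw [Kx_aa_t hM, K_ca_t hM hp]; exact (G F Y).zero_mem
          · rw [Ky_aa_t hM, K_ca_t hM hp]; exact (G F Y).zero_mem
        | d r =>
          simp only [ty, LinearMap.sub_apply, map_sub]
          rw [Kx_aa_t hM, Ky_aa_t hM, K_ca_t hM hp, K_ca_t hM hp, sub_self]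
          exact (G F Y).zero_mem
      | b _ _ _ _ _ _ => simp [vert] at hβ
      | c _ _ _ _ => simp [vert] at hβ

/-- the action of the word -/
theorem Wd_fin (hm : 0 < m) (N : ℕ) :
    Wd (pr F m M) (Xop F m) (K (pr F m M) (Xop F m) .al .al) 0 (.d 0) N 0 (bv F (.fin 0 0))
      = bv F (.t 0 (.d 0) N 0 1 0) := by
  unfold Wd
  simp only [pow_zero, mul_one, Module.End.mul_apply]
  have hb : V.b 0 ∈ S m := by rw [mem_b]; omega
  have hc : V.c (.d 0) ∈ S m := by rw [mem_c, mem_d]; omega
  rw [Kx_aa hM, K_ca hM hc, K_bc hM hb hc, Kpow_bb hM hb, K_ab hM hb, zero_add, zero_add]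

end H98

/-- RMG -/
theorem t_RMG : S_RMG.{u} := fun _ _ _ _ _ _ hM _ hp _ hr β hβ =>
  H98.rel_mem_G hM rfl hp hr β hβ

/-- WFI -/
theorem t_WFI : S_WFI.{u} := fun _ _ _ _ _ _ hM hm N => H98.Wd_fin hM hm N

namespace H98

open Classical in
theorem lam_t (F : Type*) [Field F] (Y : Sys) (i : ℕ) (j : Col) (n n' p q : ℕ) :
    lam F Y (.t i j n n' p q) =
      if (adj i j ∧ lev p q j ∧ ¬ Y.Halts (n + A Y i j * n')) then 1 else 0 := rfl

theorem lam_pos (F : Type*) [Field F] {Y : Sys} {i : ℕ} {j : Col} {n n' p q : ℕ}
    (h : adj i j ∧ lev p q j ∧ ¬ Y.Halts (n + A Y i j * n')) : lam F Y (.t i j n n' p q) = 1 := by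
  rw [lam_t, if_pos h]

theorem lam_neg (F : Type*) [Field F] {Y : Sys} {i : ℕ} {j : Col} {n n' p q : ℕ}
    (h : ¬ (adj i j ∧ lev p q j ∧ ¬ Y.Halts (n + A Y i j * n'))) :
    lam F Y (.t i j n n' p q) = 0 := by
  rw [lam_t, if_neg h]

theorem lam_eq (F : Type*) [Field F] {Y : Sys} {i : ℕ} {j : Col} {n n' p q : ℕ}
    {i2 : ℕ} {j2 : Col} {n2 n2' p2 q2 : ℕ}
    (h : (adj i j ∧ lev p q j ∧ ¬ Y.Halts (n + A Y i j * n')) ↔
      (adj i2 j2 ∧ lev p2 q2 j2 ∧ ¬ Y.Halts (n2 + A Y i2 j2 * n2'))) :
    lam F Y (.t i j n n' p q) = lam F Y (.t i2 j2 n2 n2' p2 q2) := by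
  by_cases h1 : (adj i j ∧ lev p q j ∧ ¬ Y.Halts (n + A Y i j * n'))
  · rw [lam_pos F h1, lam_pos F (h.1 h1)]
  · rw [lam_neg F h1, lam_neg F (fun h2 => h1 (h.2 h2))]

theorem lam_isW (F : Type*) [Field F] (Y : Sys) : IsW Y (lam F Y) := by
  constructor
  · intros; rfl
  · intro i j n n' p q
    apply lam_eq
    rw [show n + A Y i j + A Y i j * n' = n + A Y i j * (n' + 1) by ring]
  · intro j n'
    simp only [lam]
    exact TY_zero j
  · intro i j n n'
    simp only [lam]
    exact TY_zero j
  · intro i j n n'
    cases j with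
    | k l =>
      simp only [TY]
      split
      · rename_i h
        intro p q
        apply lam_neg
        rintro ⟨_, h2, _⟩
        simp only [lev, if_pos h] at h2
        omega
      · rename_i h
        intro p q
        apply lam_neg
        rintro ⟨_, h2, _⟩
        simp only [lev, if_neg h] at h2
        omega
    | d r =>
      simp only [TY]
      intro p q
      have : lev (p + 1) q (.d r) ↔ lev p (q + 1) (.d r) := by simp only [lev]; omega
      apply lam_eq
      rw [this]
  · intro i n p q
    simp [lam]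
  · intro i n p q
    by_cases hH : Y.Halts n
    · rw [lam_neg, lam_neg, lam_neg, add_zero]
      · rintro ⟨_, _, h⟩; exact h (by simpa using hH)
      · rintro ⟨_, _, h⟩; exact h (by simpa using hH)
      · rintro ⟨_, _, h⟩; exact h (by simpa using hH)
    · have a1 : adj i (.k i) := Or.inl rfl
      have a2 : adj i (.k (i + 1)) := Or.inr rfl
      have a3 : adj i (.d (i / 2)) := rfl
      have hH1 : ∀ j, ¬ Y.Halts (n + A Y i j * 0) := fun j => by simpa using hH
      by_cases hi : i % 2 = 0
      · have hi' : ¬ (i + 1) % 2 = 0 := by omega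
        by_cases h1 : p = 0 ∧ q = 1
        · rw [lam_pos F ⟨a1, by simpa only [lev, if_pos hi] using h1, hH1 _⟩,
            lam_neg F (fun h => by
              have h2 := h.2.1
              simp only [lev, if_neg hi'] at h2; omega),
            lam_pos F ⟨a3, by simp only [lev]; omega, hH1 _⟩, add_zero]
        · by_cases h2 : p = 1 ∧ q = 0
          · rw [lam_neg F (fun h => by
              have h2 := h.2.1
              simp only [lev, if_pos hi] at h2; omega),
              lam_pos F ⟨a2, by simpa only [lev, if_neg hi'] using h2, hH1 _⟩,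
              lam_pos F ⟨a3, by simp only [lev]; omega, hH1 _⟩, zero_add]
          · rw [lam_neg F (fun h => by
              have h2 := h.2.1
              simp only [lev, if_pos hi] at h2; omega),
              lam_neg F (fun h => by
              have h2 := h.2.1
              simp only [lev, if_neg hi'] at h2; omega),
              lam_neg F (fun h => by
              have h2 := h.2.1
              simp only [lev] at h2; omega), zero_add]
      · have hi' : (i + 1) % 2 = 0 := by omega
        by_cases h1 : p = 0 ∧ q = 1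
        · rw [lam_neg F (fun h => by
              have h2 := h.2.1
              simp only [lev, if_neg hi] at h2; omega),
            lam_pos F ⟨a2, by simpa only [lev, if_pos hi'] using h1, hH1 _⟩,
            lam_pos F ⟨a3, by simp only [lev]; omega, hH1 _⟩, zero_add]
        · by_cases h2 : p = 1 ∧ q = 0
          · rw [lam_pos F ⟨a1, by simpa only [lev, if_neg hi] using h2, hH1 _⟩,
              lam_neg F (fun h => by
              have h2 := h.2.1
              simp only [lev, if_pos hi'] at h2; omega),
              lam_pos F ⟨a3, by simp only [lev]; omega, hH1 _⟩, add_zero]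
          · rw [lam_neg F (fun h => by
              have h2 := h.2.1
              simp only [lev, if_neg hi] at h2; omega),
              lam_neg F (fun h => by
              have h2 := h.2.1
              simp only [lev, if_pos hi'] at h2; omega),
              lam_neg F (fun h => by
              have h2 := h.2.1
              simp only [lev] at h2; omega), zero_add]
  · intro i n' p q hi
    apply lam_eq
    have a2 : adj i (.k (i + 1)) := Or.inr rfl
    have a1 : adj (i + 1) (.k (i + 1)) := Or.inl rfl
    simp only [a1, a2, A]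
  · intro r n' p q hr
    have e0 : 2 * r / 2 = r := by omega
    have e1 : (2 * r + 1) / 2 = r := by omega
    have e2 : 2 * r % 2 = 0 := by omega
    have e3 : ¬ (2 * r + 1) % 2 = 0 := by omega
    have a1 : adj (2 * r) (.d r) := e0.symm
    have a2 : adj (2 * r + 1) (.d r) := e1.symm
    have b1 : A Y (2 * r) (.d r) = Y.m := by simp only [A, if_pos e2]
    have b2 : A Y (2 * r + 1) (.d r) = Y.a r := by simp only [A, if_neg e3, e1]
    have hh := Pool.Agent.Helper707.Model.halts_iff hr n'
    by_cases hH : Y.H r = true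
    · have hk : kap Y r = 0 := by simp [kap, hH]
      rw [hk, Nat.cast_zero, zero_mul]
      apply lam_neg
      rintro ⟨_, _, h⟩
      apply h
      rw [b1]
      exact hh.2 (Or.inl hH)
    · have hk : kap Y r = 1 := by simp [kap, hH]
      rw [hk, Nat.cast_one, one_mul]
      apply lam_eq
      rw [b1, b2, hh, add_comm (Y.e r)]
      simp [a1, a2, hH]

end H98

/-- LAM -/
theorem t_LAM : S_LAM.{u} := fun F _ Y => H98.lam_isW F Y

end Pool.Agent.Helper8.MG
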